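import Mathlib

namespace Pool.Agent.Results.MP_3569d7_al.NotAttained

open Matrix Polynomial

/-- `M` is a completion of the partial matrix `A` (`none` marks an unspecified entry). -/
def IsCompletion {F ι κ : Type} (A : ι → κ → Option F) (M : Matrix ι κ F) : Prop :=
  ∀ i j a, A i j = some a → M i j = a

/-- Minimal rank: the least rank of a completion. -/
noncomputable def mr {F ι κ : Type} [Field F] [Fintype κ] (A : ι → κ → Option F) : ℕ :=
  sInf {r | ∃ M, IsCompletion A M ∧ M.rank = r}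

/-- `A ⊗ I_b`: block `a • I_b` at a specified entry `a`, a fully unspecified block elsewhere. -/
def tensorId {F ι κ : Type} [Zero F] (A : ι → κ → Option F) (b : ℕ) :
    ι × Fin b → κ × Fin b → Option F :=
  fun p q => (A p.1 q.1).map fun a => if p.2 = q.2 then a else 0

/-- Fractional minimal rank: the infimum of `mr (A ⊗ I_b) / b` over `b ≥ 1`. -/
noncomputable def fmr {F ι κ : Type} [Field F] [Fintype κ] (A : ι → κ → Option F) : ℝ :=
  sInf {x | ∃ b : ℕ, 1 ≤ b ∧ x = (mr (tensorId A b) : ℝ) / b}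

/-- pattern with integer entries; `9` codes an unspecified entry -/
def A0 : Fin 11 → Fin 15 → ℤ :=
  ![![1, 0, 0, 0, 0, 0, 9, 9, 9, 0, 0, 1, 0, 0, 0],
    ![0, 1, 0, 0, 0, 0, 1, 9, 0, 9, 0, 0, 1, 0, 0],
    ![0, 0, 1, 0, 0, 0, 0, 0, 9, 0, 9, 0, 0, 1, 0],
    ![0, 0, 0, 1, 0, 0, -1, 0, 0, 0, 0, 0, 0, 0, -1],
    ![0, 0, 0, 0, 1, 0, 0, 0, 0, 0, 0, 9, 9, 9, 9],
    ![0, 0, 0, 0, 0, 1, -1, -1, -1, 0, 0, 1, 1, 1, 1],
    ![9, 9, 9, 9, 1, 0, 0, 0, 0, 1, 1, 0, 0, 0, 0],
    ![0, 1, 1, 0, 1, 9, 9, 0, 1, 9, 9, 0, 9, 9, 9],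
    ![1, 0, 0, 0, 1, 9, 0, 9, 9, 9, 9, 9, 0, 9, 9],
    ![1, 0, 0, 0, 1, 9, 9, 9, 0, 9, 9, 9, 9, 0, 9],
    ![1, 0, 0, 0, 1, 9, 9, 0, 9, 9, 9, 9, 9, 9, 0]]

def A (F : Type) [Field F] : Fin 11 → Fin 15 → Option F :=
  fun i j => if A0 i j = 9 then none else some (A0 i j : F)

lemma no_sol_alg {K : Type} [Field K] [IsAlgClosed K] {b : ℕ} [NeZero b]
    (x y y' z z' : Matrix (Fin b) (Fin b) K) (h1 : y * x = x * (x * y + y)) (h2 : y * y' = 1)
    (h3 : x * z + z * (x + 1) = 0) (h4 : z * z' = 1) : False := by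
  have hne : (spectrum K x).Nonempty := spectrum.nonempty_of_isAlgClosed_of_finiteDimensional K x
  have conj : ∀ (u u' w : Matrix (Fin b) (Fin b) K), u * u' = 1 → u * x = w * u →
      spectrum K w = spectrum K x := by
    intro u u' w hu hw
    have hu' : u' * u = 1 := mul_eq_one_comm.1 hu
    have : w = (⟨u, u', hu, hu'⟩ : (Matrix (Fin b) (Fin b) K)ˣ) * x *
        ((⟨u, u', hu, hu'⟩ : (Matrix (Fin b) (Fin b) K)ˣ)⁻¹ : (Matrix (Fin b) (Fin b) K)ˣ) := by
      change w = u * x * u'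
      rw [hw, mul_assoc, hu, mul_one]
    rw [this, spectrum.units_conjugate]
  have e1 := conj y y' (aeval x (X ^ 2 + X : K[X])) h2 (by simp [h1]; noncomm_ring)
  have e2 := conj z z' (aeval x (-1 - X : K[X])) h4 (by
    have : z * x = -(x * z) - z := by
      rw [mul_add, mul_one] at h3
      rw [eq_sub_iff_add_eq, eq_neg_iff_add_eq_zero, add_comm]; exact h3
    simp [this]; noncomm_ring)
  rw [spectrum.map_polynomial_aeval_of_nonempty _ _ hne] at e1 e2
  have hb := (x.finite_spectrum.surjOn_iff_bijOn_of_mapsTo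
    (f := fun k => eval k (X ^ 2 + X : K[X])) (fun k hk => e1 ▸ Set.mem_image_of_mem _ hk)).1
    (by intro k hk; rw [e1]; exact hk)
  have half : ∀ k ∈ spectrum K x, -1 - k = k := by
    intro k hk
    have hk' : -1 - k ∈ spectrum K x := by
      rw [← e2]; exact ⟨k, hk, by simp⟩
    exact hb.injOn hk' hk (by simp; ring)
  obtain ⟨k, hk⟩ := hne
  have a1 := half k hk
  have a2 := half _ (hb.mapsTo hk)
  simp only [eval_add, eval_pow, eval_X] at a2
  have : (1 : K) = 0 := by
    linear_combination (-2 : K) * a2 + (2 * k + 1) * a1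
  exact one_ne_zero this

lemma no_sol {F : Type} [Field F] {b : ℕ} [NeZero b]
    (x y y' z z' : Matrix (Fin b) (Fin b) F) (h1 : y * x = x * (x * y + y)) (h2 : y * y' = 1)
    (h3 : x * z + z * (x + 1) = 0) (h4 : z * z' = 1) : False := by
  let φ := (algebraMap F (AlgebraicClosure F)).mapMatrix (m := Fin b)
  refine no_sol_alg (φ x) (φ y) (φ y') (φ z) (φ z') ?_ ?_ ?_ ?_
  · simpa only [map_mul, map_add] using congrArg φ h1
  · simpa only [map_mul, map_one] using congrArg φ h2
  · simpa only [map_mul, map_add, map_one, map_zero] using congrArg φ h3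
  · simpa only [map_mul, map_one] using congrArg φ h4

lemma factor {F ι κ δ : Type} [Field F] [Fintype κ] [Fintype δ] [DecidableEq δ]
    (M : Matrix ι κ F) (e : δ → ι) (f : δ → κ) (h : M.submatrix e f = 1)
    (hr : M.rank ≤ Fintype.card δ) : M = M.submatrix id f * M.submatrix e id := by
  classical
  have hinj : Function.Injective (M.submatrix id f).mulVecLin := by
    rw [injective_iff_map_eq_zero]
    intro v hv
    have : (M.submatrix e f) *ᵥ v = 0 := by
      ext d; exact congrFun hv (e d)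
    rwa [h, one_mulVec] at this
  have hle : LinearMap.range (M.submatrix id f).mulVecLin ≤ LinearMap.range M.mulVecLin := by
    rw [range_mulVecLin, range_mulVecLin]
    refine Submodule.span_mono ?_
    rintro _ ⟨d, rfl⟩
    exact ⟨f d, rfl⟩
  have heq : LinearMap.range (M.submatrix id f).mulVecLin = LinearMap.range M.mulVecLin := by
    refine Submodule.eq_of_le_of_finrank_le hle ?_
    rw [LinearMap.finrank_range_of_inj hinj, Module.finrank_pi]
    exact hr
  ext i j
  have : M.col j ∈ LinearMap.range (M.submatrix id f).mulVecLin := by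
    rw [heq, range_mulVecLin]; exact Submodule.subset_span ⟨j, rfl⟩
  obtain ⟨v, hv⟩ := this
  have hv' : ∀ d, M (e d) j = v d := by
    intro d
    have h1 : (M.submatrix e f *ᵥ v) d = M (e d) j := congrFun hv (e d)
    rw [h, one_mulVec] at h1
    exact h1.symm
  have := congrFun hv i
  simp only [mulVecLin_apply, mulVec, dotProduct, col_apply] at this
  rw [← this, mul_apply]
  simp [hv']

def blk {F : Type} {b : ℕ} (M : Matrix (Fin 11 × Fin b) (Fin 15 × Fin b) F) (i : Fin 11)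
    (j : Fin 15) : Matrix (Fin b) (Fin b) F := fun s t => M (i, s) (j, t)

lemma compl_iff {F : Type} [Field F] {b : ℕ} (M : Matrix (Fin 11 × Fin b) (Fin 15 × Fin b) F) :
    IsCompletion (tensorId (A F) b) M ↔
      ∀ i j, A0 i j ≠ 9 → blk M i j = (A0 i j : Matrix (Fin b) (Fin b) F) := by
  constructor
  · intro h i j hij
    ext s t
    have := h (i, s) (j, t) (if s = t then (A0 i j : F) else 0) (by simp [tensorId, A, hij])
    rw [blk, this, Matrix.intCast_apply]
    split_ifs <;> simp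
  · rintro h ⟨i, s⟩ ⟨j, t⟩ a ha
    by_cases hij : A0 i j = 9
    · simp [tensorId, A, hij] at ha
    · have := congrFun (congrFun (h i j hij) s) t
      simp only [tensorId, A, hij, if_false, Option.map_some, Option.some.injEq] at ha
      rw [blk, Matrix.intCast_apply] at this
      rw [this, ← ha]
      split_ifs <;> simp

lemma lower {F : Type} [Field F] {b : ℕ} (hb : 1 ≤ b)
    (M : Matrix (Fin 11 × Fin b) (Fin 15 × Fin b) F) (hM : IsCompletion (tensorId (A F) b) M) :
    6 * b + 1 ≤ M.rank := by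
  have : NeZero b := ⟨by omega⟩
  by_contra hlt
  rw [compl_iff] at hM
  have hf := factor M (fun p : Fin 6 × Fin b => (Fin.castLE (by norm_num) p.1, p.2))
    (fun p : Fin 6 × Fin b => (Fin.castLE (by norm_num) p.1, p.2)) (by
      ext ⟨i, s⟩ ⟨j, t⟩
      have h0 : ∀ i j : Fin 6, A0 (Fin.castLE (by norm_num) i) (Fin.castLE (by norm_num) j) =
        if i = j then 1 else 0 := by decide
      have := congrFun (congrFun (hM (Fin.castLE (by norm_num) i) (Fin.castLE (by norm_num) j)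
        (by rw [h0]; split_ifs <;> norm_num)) s) t
      rw [submatrix_apply]
      refine this.trans ?_
      rw [h0]
      by_cases hij : i = j <;> simp [hij, one_apply]) (by simp; omega)
  have key : ∀ i j, blk M i j = blk M i 0 * blk M 0 j + blk M i 1 * blk M 1 j +
      blk M i 2 * blk M 2 j + blk M i 3 * blk M 3 j + blk M i 4 * blk M 4 j +
      blk M i 5 * blk M 5 j := by
    intro i j
    ext s t
    have := congrFun (congrFun hf (i, s)) (j, t)
    rw [mul_apply, Fintype.sum_prod_type, Fin.sum_univ_six] at this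
    exact this
  have z : ∀ i j, A0 i j = 0 → blk M i j = 0 := fun i j h => by
    rw [hM i j (by omega), h]; simp
  have o : ∀ i j, A0 i j = 1 → blk M i j = 1 := fun i j h => by
    rw [hM i j (by omega), h]; simp
  have n : ∀ i j, A0 i j = -1 → blk M i j = -1 := fun i j h => by
    rw [hM i j (by omega), h]; simp
  have k66 := key 6 6
  have k67 := key 6 7
  have k68 := key 6 8
  have k69 := key 6 9
  have k610 := key 6 10
  have k611 := key 6 11
  have k612 := key 6 12
  have k613 := key 6 13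
  have k614 := key 6 14
  have k77 := key 7 7
  have k78 := key 7 8
  have k711 := key 7 11
  have k86 := key 8 6
  have k812 := key 8 12
  have k98 := key 9 8
  have k913 := key 9 13
  have k107 := key 10 7
  have k1014 := key 10 14
  simp (disch := decide) only [z, o, n, mul_zero, zero_mul, mul_one, one_mul, add_zero, zero_add,
    mul_neg, neg_zero] at k66 k67 k68 k69 k610 k611 k612 k613 k614 k77 k78 k711 k86 k812 k98 k913 k107 k1014
  have x1 : blk M 1 7 = blk M 6 0 := by linear_combination (norm := abel1) -k77 - k711 + k611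
  have x2 : blk M 2 8 = blk M 6 0 + 1 := by linear_combination (norm := abel1) -k78 - k711 + k611
  have y1 : blk M 0 6 = blk M 6 1 := by linear_combination (norm := abel1) -k86 - k812 + k612
  have z1 : blk M 0 8 = blk M 6 2 := by linear_combination (norm := abel1) -k98 - k913 + k613
  have v1 : blk M 0 7 = -blk M 6 3 := by linear_combination (norm := abel1) -k107 - k1014 + k614
  rw [y1] at k66
  rw [x1, v1] at k67
  rw [x2, z1] at k68
  have v2 : blk M 6 3 = blk M 6 0 * blk M 6 1 + blk M 6 1 := by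
    linear_combination (norm := abel1) k66
  rw [v2, mul_neg] at k67
  exact no_sol (blk M 6 0) (blk M 6 1) _ (blk M 6 2) _ (by linear_combination (norm := abel1) -k67)
    k69.symm k68.symm k610.symm

def P0 {R : Type} [Ring R] (x y z : R) : Matrix (Fin 11) (Fin 6) R :=
  !![1, 0, 0, 0, 0, 0; 0, 1, 0, 0, 0, 0; 0, 0, 1, 0, 0, 0; 0, 0, 0, 1, 0, 0; 0, 0, 0, 0, 1, 0;
    0, 0, 0, 0, 0, 1; x, y, z, x * y + y, 1, 0; 0, 1, 1, 0, 1, x; 1, 0, 0, 0, 1, y;
    1, 0, 0, 0, 1, z; 1, 0, 0, 0, 1, -(x * y + y)]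

def Q0 {R : Type} [Ring R] (x y y' z z' : R) : Matrix (Fin 6) (Fin 15) R :=
  !![1, 0, 0, 0, 0, 0, y, -(x * y + y), z, 0, 0, 1, 0, 0, 0;
    0, 1, 0, 0, 0, 0, 1, x, 0, y', 0, 0, 1, 0, 0;
    0, 0, 1, 0, 0, 0, 0, 0, x + 1, 0, z', 0, 0, 1, 0;
    0, 0, 0, 1, 0, 0, -1, 0, 0, 0, 0, 0, 0, 0, -1;
    0, 0, 0, 0, 1, 0, 0, 0, 0, 0, 0, -x, -y, -z, x * y + y;
    0, 0, 0, 0, 0, 1, -1, -1, -1, 0, 0, 1, 1, 1, 1]

lemma PQ {R : Type} [Ring R] (x y y' z z' e : R) (h1 : y * x = x * (x * y + y)) (h2 : y * y' = 1)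
    (h3 : x * z + z * (x + 1) + e = 0) (h4 : z * z' = 1) (i : Fin 11) (j : Fin 15)
    (h : A0 i j ≠ 9) :
    (P0 x y z * Q0 x y y' z z') i j + (if i = 6 ∧ j = 8 then e else 0) = (A0 i j : R) := by
  rw [mul_apply, Fin.sum_univ_six]
  fin_cases i <;> fin_cases j <;> first
    | exact absurd rfl h
    | simp [P0, Q0, A0, h1, h2, h3, h4, -neg_add_rev]

noncomputable def mat {F : Type} [Field F] (b : ℕ) (w : ℕ → F[X]) : Matrix (Fin b) (Fin b) F :=
  fun i j => (w j).coeff i

def sh (F : Type) [Field F] (b : ℕ) : Matrix (Fin b) (Fin b) F :=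
  fun i j => if (i : ℕ) = j + 1 then 1 else 0

lemma sh_mul {F : Type} [Field F] (b : ℕ) (w : ℕ → F[X]) :
    sh F b * mat b w = mat b fun j => X * w j := by
  ext ⟨i, hi⟩ j
  rw [mul_apply]
  rcases i with _ | i
  · simp [sh, mat]
  · rw [Finset.sum_eq_single ⟨i, by omega⟩]
    · simp [sh, mat]
    · intro k _ hk
      have : ¬ i = k := fun h => hk (Fin.ext h.symm)
      simp [sh, this]
    · simp

lemma mul_sh {F : Type} [Field F] (b : ℕ) (w : ℕ → F[X]) (i j : Fin b) :
    (mat b w * sh F b) i j = if (j : ℕ) + 1 < b then (w (j + 1)).coeff i else 0 := by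
  rw [mul_apply]
  split_ifs with h
  · rw [Finset.sum_eq_single ⟨j + 1, h⟩]
    · simp [sh, mat]
    · intro k _ hk
      have : ¬ (k : ℕ) = j + 1 := fun h => hk (Fin.ext h)
      simp [sh, this]
    · simp
  · refine Finset.sum_eq_zero fun k _ => ?_
    have : ¬ (k : ℕ) = j + 1 := by omega
    simp [sh, this]

lemma approx (F : Type) [Field F] (b : ℕ) : ∃ (x y y' z z' : Matrix (Fin b) (Fin b) F)
    (u v : Fin b → F), y * x = x * (x * y + y) ∧ y * y' = 1 ∧
      x * z + z * (x + 1) + vecMulVec u v = 0 ∧ z * z' = 1 := by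
  have hy : ∀ i j : ℕ, ((X * X + X : F[X]) ^ j).coeff i =
      if j ≤ i then (j.choose (i - j) : F) else 0 := by
    intro i j
    rw [show (X * X + X : F[X]) ^ j = X ^ j * (X + 1) ^ j by rw [← mul_pow]; ring,
      coeff_X_pow_mul', coeff_X_add_one_pow]
  have hz : ∀ i j : ℕ, ((-1 - X : F[X]) ^ j).coeff i = (-1) ^ j * (j.choose i : F) := by
    intro i j
    rw [show (-1 - X : F[X]) ^ j = C ((-1) ^ j) * (X + 1) ^ j by
      rw [C_pow, ← mul_pow]; simp; ring, coeff_C_mul, coeff_X_add_one_pow]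
  refine ⟨sh F b, mat b fun j => (X * X + X) ^ j, (mat b fun j => (X * X + X) ^ j)⁻¹,
    mat b fun j => (-1 - X) ^ j, (mat b fun j => (-1 - X) ^ j)⁻¹,
    fun i => ((-1 - X : F[X]) ^ b).coeff i, fun j => if (j : ℕ) + 1 < b then 0 else 1,
    ?_, mul_nonsing_inv _ ?_, ?_, mul_nonsing_inv _ ?_⟩
  · rw [mul_add, sh_mul, sh_mul]
    ext i j
    rw [mul_sh, Matrix.add_apply, mat, mat, ← coeff_add, show X * (X * (X * X + X : F[X]) ^ (j : ℕ)) +
      X * (X * X + X) ^ (j : ℕ) = (X * X + X) ^ ((j : ℕ) + 1) by ring]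
    split_ifs with h
    · rfl
    · rw [hy, if_neg (by omega)]
  · rw [det_of_isLowerTriangular]
    · simp [mat, hy]
    · intro i j hij
      have : ¬ (j : ℕ) ≤ i := not_le.2 hij
      simp [mat, hy, this]
  · rw [mul_add, mul_one, sh_mul]
    ext i j
    have : (X * (-1 - X : F[X]) ^ (j : ℕ)).coeff i + ((-1 - X : F[X]) ^ (j : ℕ)).coeff i +
        ((-1 - X : F[X]) ^ ((j : ℕ) + 1)).coeff i = 0 := by
      rw [← coeff_add, ← coeff_add, show X * (-1 - X : F[X]) ^ (j : ℕ) + (-1 - X) ^ (j : ℕ) +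
        (-1 - X) ^ ((j : ℕ) + 1) = 0 by ring, coeff_zero]
    rw [Matrix.add_apply, Matrix.add_apply, Matrix.add_apply, mul_sh, vecMulVec_apply, mat, mat, Matrix.zero_apply]
    split_ifs with h
    · linear_combination this
    · rw [show (j : ℕ) + 1 = b by omega] at this
      linear_combination this
  · rw [det_of_isUpperTriangular]
    · simp only [mat, hz, Nat.choose_self, Nat.cast_one, mul_one, isUnit_iff_ne_zero]
      exact Finset.prod_ne_zero_iff.2 fun i _ => by simp
    · intro i j hij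
      have : (j : ℕ) < i := hij
      simp [mat, hz, Nat.choose_eq_zero_of_lt this]

lemma upper (F : Type) [Field F] (b : ℕ) : ∃ M : Matrix (Fin 11 × Fin b) (Fin 15 × Fin b) F,
    IsCompletion (tensorId (A F) b) M ∧ M.rank ≤ 6 * b + 1 := by
  obtain ⟨x, y, y', z, z', u, v, h1, h2, h3, h4⟩ := approx F b
  let P : Matrix (Fin 11 × Fin b) ((Fin 6 × Fin b) ⊕ Unit) F := fun p =>
    Sum.elim (fun q => P0 x y z p.1 q.1 p.2 q.2) fun _ => if p.1 = 6 then u p.2 else 0
  let Q : Matrix ((Fin 6 × Fin b) ⊕ Unit) (Fin 15 × Fin b) F :=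
    Sum.elim (fun q p => Q0 x y y' z z' q.1 p.1 q.2 p.2) fun _ p => if p.1 = 8 then v p.2 else 0
  refine ⟨P * Q, (compl_iff _).2 fun i j h => ?_, ?_⟩
  · rw [← PQ x y y' z z' _ h1 h2 h3 h4 i j h]
    ext s t
    rw [blk, mul_apply, Fintype.sum_sum_type, Fintype.sum_prod_type, Matrix.add_apply, mul_apply,
      Matrix.sum_apply]
    congr 1
    by_cases h6 : i = 6 <;> by_cases h8 : j = 8 <;> simp [P, Q, h6, h8, vecMulVec_apply]
  · refine (rank_mul_le_left _ _).trans ((rank_le_card_width _).trans ?_)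
    simp

lemma mr_eq (F : Type) [Field F] {b : ℕ} (hb : 1 ≤ b) : mr (tensorId (A F) b) = 6 * b + 1 := by
  obtain ⟨M, hM, hr⟩ := upper F b
  apply le_antisymm
  · exact le_trans (Nat.sInf_le ⟨M, hM, rfl⟩) hr
  · refine le_csInf ⟨_, M, hM, rfl⟩ ?_
    rintro _ ⟨N, hN, rfl⟩
    exact lower hb N hN

theorem result (F : Type) [Field F] : ∃ (m n : ℕ) (A : Fin m → Fin n → Option F),
    ∀ b : ℕ, 1 ≤ b → fmr A < (mr (tensorId A b) : ℝ) / b := by
  refine ⟨11, 15, A F, fun b hb => ?_⟩
  have h1 : fmr (A F) ≤ (mr (tensorId (A F) (b + 1)) : ℝ) / (b + 1 : ℕ) := by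
    refine csInf_le ⟨0, ?_⟩ ⟨b + 1, by omega, rfl⟩
    rintro _ ⟨c, _, rfl⟩
    positivity
  refine h1.trans_lt ?_
  have hb' : (0 : ℝ) < b := by exact_mod_cast hb
  rw [mr_eq F hb, mr_eq F (by omega), div_lt_div_iff₀ (by positivity) hb']
  push_cast
  linarith

end Pool.Agent.Results.MP_3569d7_al.NotAttained
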